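import Pool.Agent.E8helper42.AZ.Stm2
import Pool.Agent.H461R3.Jacobi

/-! Project AZ: part IA, stable subspaces. -/

set_option autoImplicit false

namespace Pool.Agent.E8helper49.AZ

open Matrix Pool.Agent.E8helper42.AZ

/-- a matrix with independent columns over a field has a left inverse -/
theorem exists_left_inv {F : Type} [Field F] {n r : ℕ} (w : Matrix (Fin n) (Fin r) F)
    (h : ∀ c : Fin r → F, w.mulVec c = 0 → c = 0) : ∃ L : Matrix (Fin r) (Fin n) F, L * w = 1 := by
  have hinj : Function.Injective (Matrix.mulVecLin w) := by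
    rw [← LinearMap.ker_eq_bot]
    rw [LinearMap.ker_eq_bot']
    intro m hm
    exact h m (by simpa using hm)
  obtain ⟨g, hg⟩ := LinearMap.exists_leftInverse_of_injective (Matrix.mulVecLin w)
    (LinearMap.ker_eq_bot.2 hinj)
  refine ⟨LinearMap.toMatrix' g, ?_⟩
  have h1 : LinearMap.toMatrix' (g ∘ₗ Matrix.mulVecLin w) = LinearMap.toMatrix' g * w := by
    rw [LinearMap.toMatrix'_comp]
    congr 1
    rw [← Matrix.toLin'_apply']
    exact LinearMap.toMatrix'_toLin' w
  rw [← h1, hg, LinearMap.toMatrix'_id]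

/-- columns stay independent after a change of rings -/
theorem indep_map {F R : Type} [Field F] [CommRing R] [Algebra F R] {n r : ℕ} (w : Matrix (Fin n) (Fin r) F)
    (h : ∀ c : Fin r → F, w.mulVec c = 0 → c = 0) (x : Fin r → R)
    (hx : (w.map (algebraMap F R)).mulVec x = 0) : x = 0 := by
  obtain ⟨L, hL⟩ := exists_left_inv w h
  have h1 : (L.map (algebraMap F R)) * (w.map (algebraMap F R)) = 1 := by
    rw [← Matrix.map_mul, hL, Matrix.map_one _ (map_zero _) (map_one _)]
  have h2 : (L.map (algebraMap F R)).mulVec ((w.map (algebraMap F R)).mulVec x) = x := by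
    rw [Matrix.mulVec_mulVec, h1, Matrix.one_mulVec]
  rw [← h2, hx, Matrix.mulVec_zero]

/-- the number of independent columns is at most the number of rows -/
theorem card_le_of_indep {R : Type} [CommRing R] [Nontrivial R] {s r : ℕ} (H : Matrix (Fin r) (Fin s) R)
    (h : ∀ x : Fin s → R, H.mulVec x = 0 → x = 0) : s ≤ r := by
  have hinj : Function.Injective (Matrix.mulVecLin H) := by
    rw [← LinearMap.ker_eq_bot, LinearMap.ker_eq_bot']
    intro m hm
    exact h m (by simpa using hm)
  simpa using card_le_of_injective R (Matrix.mulVecLin H) hinj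

section der

variable {R : Type} [CommRing R] [Algebra ℂ R] (θ : Derivation ℂ R R)

theorem der_mul {a b c : ℕ} (M : Matrix (Fin a) (Fin b) R) (N : Matrix (Fin b) (Fin c) R) :
    (M * N).map θ = M.map θ * N + M * N.map θ := by
  ext i j
  simp only [Matrix.map_apply, Matrix.mul_apply, Matrix.add_apply, map_sum]
  rw [← Finset.sum_add_distrib]
  refine Finset.sum_congr rfl fun k _ => ?_
  rw [Derivation.leibniz, smul_eq_mul, smul_eq_mul]
  ring

theorem der_mulVec {a b : ℕ} (M : Matrix (Fin a) (Fin b) R) (x : Fin b → R) :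
    θ ∘ (M.mulVec x) = (M.map θ).mulVec x + M.mulVec (θ ∘ x) := by
  funext i
  simp only [Function.comp, Matrix.mulVec, dotProduct, Matrix.map_apply, Pi.add_apply, map_sum]
  rw [← Finset.sum_add_distrib]
  refine Finset.sum_congr rfl fun k _ => ?_
  rw [Derivation.leibniz, smul_eq_mul, smul_eq_mul]
  ring

theorem der_const {a : ℕ} (c : Fin a → ℂ) : θ ∘ (algebraMap ℂ R ∘ c) = 0 := by
  funext i
  simp

end der

section cols

variable {R : Type} [CommRing R]

theorem mul_cols {a b c : ℕ} (M : Matrix (Fin a) (Fin b) R) (N : Matrix (Fin b) (Fin c) R) (i : Fin a)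
    (j : Fin c) : (M * N) i j = M.mulVec (fun k => N k j) i := rfl

theorem zero_of_mul_zero {a b c : ℕ} (M : Matrix (Fin a) (Fin b) R) (N : Matrix (Fin b) (Fin c) R)
    (hM : ∀ x : Fin b → R, M.mulVec x = 0 → x = 0) (h : M * N = 0) : N = 0 := by
  ext k j
  have h1 : M.mulVec (fun k => N k j) = 0 := by
    funext i
    rw [← mul_cols, h]
    rfl
  exact congrFun (hM _ h1) k

end cols

theorem t_IA : S_IA := by
  intro hST F R _ _ _ _ _ _ _ θF θ hθ hDS n A Φ Ψ hΦΨ hΦ r w B hw hwB
  classical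
  have hΨΦ : Ψ * Φ = 1 := mul_eq_one_comm.1 hΦΨ
  obtain ⟨wR, hwRd⟩ : ∃ wR, wR = w.map (algebraMap F R) := ⟨_, rfl⟩
  obtain ⟨AR, hARd⟩ : ∃ AR, AR = A.map (algebraMap F R) := ⟨_, rfl⟩
  obtain ⟨BR, hBRd⟩ : ∃ BR, BR = B.map (algebraMap F R) := ⟨_, rfl⟩
  have hwR : ∀ x, wR.mulVec x = 0 → x = 0 := fun x hx => indep_map w hw x (hwRd ▸ hx)
  have hθw : wR.map θ = AR * wR + wR * BR := by
    have h1 : w.map θF = A * w + w * B := by rw [← hwB]; abel
    have h2 : wR.map θ = (w.map θF).map (algebraMap F R) := by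
      ext a b
      simp [hwRd, hθ]
    rw [h2, h1, Matrix.map_add _ (map_add _), Matrix.map_mul, Matrix.map_mul, hwRd, hARd, hBRd]
  have hΦ' : Φ.map θ = AR * Φ := by rw [hΦ, hARd]
  -- the constants
  let G : Submodule ℂ (Fin n → ℂ) :=
    { carrier := {c | ∃ x : Fin r → R, Φ.mulVec (algebraMap ℂ R ∘ c) = wR.mulVec x}
      add_mem' := by
        rintro c c' ⟨x, hx⟩ ⟨x', hx'⟩
        refine ⟨x + x', ?_⟩
        have h1 : algebraMap ℂ R ∘ (c + c') = algebraMap ℂ R ∘ c + algebraMap ℂ R ∘ c' := by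
          funext k; simp
        rw [h1, Matrix.mulVec_add, hx, hx', Matrix.mulVec_add]
      zero_mem' := by
        refine ⟨0, ?_⟩
        have h1 : algebraMap ℂ R ∘ (0 : Fin n → ℂ) = 0 := by
          funext k; simp
        rw [h1, Matrix.mulVec_zero, Matrix.mulVec_zero]
      smul_mem' := by
        rintro a c ⟨x, hx⟩
        refine ⟨algebraMap ℂ R a • x, ?_⟩
        have h1 : algebraMap ℂ R ∘ (a • c) = algebraMap ℂ R a • (algebraMap ℂ R ∘ c) := by
          funext k; simp
        rw [h1, Matrix.mulVec_smul, hx, Matrix.mulVec_smul] }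
  have memG : ∀ c, c ∈ G ↔ ∃ x : Fin r → R, Φ.mulVec (algebraMap ℂ R ∘ c) = wR.mulVec x :=
    fun c => Iff.rfl
  -- the matrices H
  have key : ∀ (t : ℕ) (c : Matrix (Fin n) (Fin t) ℂ), (∀ j, c.transpose j ∈ G) →
      (∀ x : Fin t → ℂ, c.mulVec x = 0 → x = 0) →
      ∃ H : Matrix (Fin r) (Fin t) R, Φ * c.map (algebraMap ℂ R) = wR * H ∧
        ∀ x, H.mulVec x = 0 → x = 0 := by
    intro t c hc hci
    choose x hx using fun j => (memG _).1 (hc j)
    refine ⟨Matrix.of fun a j => x j a, ?_, ?_⟩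
    · ext a j
      rw [mul_cols, mul_cols]
      exact congrFun (hx j) a
    · intro y hy
      have h1 : (Φ * c.map (algebraMap ℂ R)).mulVec y = 0 := by
        have h2 : Φ * c.map (algebraMap ℂ R) = wR * Matrix.of fun a j => x j a := by
          ext a j
          rw [mul_cols, mul_cols]
          exact congrFun (hx j) a
        rw [h2, ← Matrix.mulVec_mulVec, hy, Matrix.mulVec_zero]
      have h3 : (c.map (algebraMap ℂ R)).mulVec y = 0 := by
        have h4 : Ψ.mulVec ((Φ * c.map (algebraMap ℂ R)).mulVec y) =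
            (c.map (algebraMap ℂ R)).mulVec y := by
          rw [Matrix.mulVec_mulVec, ← Matrix.mul_assoc, hΨΦ, Matrix.one_mul]
        rw [← h4, h1, Matrix.mulVec_zero]
      exact indep_map c hci y h3
  refine ⟨G, ?_, ?_, ?_⟩
  · -- dimension
    let b := Module.finBasis ℂ G
    obtain ⟨s, hs⟩ : ∃ s, s = Module.finrank ℂ G := ⟨_, rfl⟩
    let b' : Module.Basis (Fin s) ℂ G := b.reindex (finCongr hs.symm)
    let cM : Matrix (Fin n) (Fin s) ℂ := Matrix.of fun k j => (b' j : Fin n → ℂ) k
    have hcM : ∀ x : Fin s → ℂ, cM.mulVec x = ((∑ j, x j • b' j : G) : Fin n → ℂ) := by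
      intro x
      funext k
      simp only [Matrix.mulVec, dotProduct, cM, Matrix.of_apply, Submodule.coe_sum,
        Submodule.coe_smul, Finset.sum_apply, Pi.smul_apply, smul_eq_mul]
      exact Finset.sum_congr rfl fun j _ => mul_comm _ _
    have hcG : ∀ j, cM.transpose j ∈ G := fun j => (b' j).2
    have hci : ∀ x : Fin s → ℂ, cM.mulVec x = 0 → x = 0 := by
      intro x hx
      rw [hcM] at hx
      have h1 : (∑ j, x j • b' j : G) = 0 := Subtype.ext hx
      funext j
      exact (Fintype.linearIndependent_iff.1 b'.linearIndependent x h1) j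
    obtain ⟨H, hH1, hH2⟩ := key s cM hcG hci
    have hsr : s ≤ r := card_le_of_indep H hH2
    -- the stable submodule
    let W : Submodule R (Fin n →₀ R) :=
      { carrier := {y | ∃ x : Fin r → R, Φ.mulVec (⇑y) = wR.mulVec x}
        add_mem' := by
          rintro y y' ⟨x, hx⟩ ⟨x', hx'⟩
          exact ⟨x + x', by rw [Finsupp.coe_add, Matrix.mulVec_add, hx, hx', Matrix.mulVec_add]⟩
        zero_mem' := ⟨0, by rw [Finsupp.coe_zero, Matrix.mulVec_zero, Matrix.mulVec_zero]⟩
        smul_mem' := by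
          rintro a y ⟨x, hx⟩
          exact ⟨a • x, by rw [Finsupp.coe_smul, Matrix.mulVec_smul, hx, Matrix.mulVec_smul]⟩ }
    have hstab : ∀ y ∈ W, y.mapRange θ (map_zero θ) ∈ W := by
      rintro y ⟨x, hx⟩
      refine ⟨BR.mulVec x + θ ∘ x, ?_⟩
      have h1 : ⇑(y.mapRange θ (map_zero θ)) = θ ∘ ⇑y := by
        funext k; simp
      rw [h1]
      have h2 := der_mulVec θ Φ (⇑y)
      have h3 := der_mulVec θ wR x
      rw [hx, h3, hΦ', hθw] at h2
      rw [Matrix.add_mulVec, ← Matrix.mulVec_mulVec, ← Matrix.mulVec_mulVec, ← Matrix.mulVec_mulVec,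
        hx] at h2
      rw [Matrix.mulVec_add]
      have h4 : Φ.mulVec (θ ∘ ⇑y) = (AR.mulVec (wR.mulVec x) + wR.mulVec (BR.mulVec x) +
        wR.mulVec (θ ∘ x)) - AR.mulVec (wR.mulVec x) := by rw [h2]; abel
      rw [h4]
      abel
    have hspan : ∀ y ∈ W, ∃ z : Fin s → R, ⇑y = (cM.map (algebraMap ℂ R)).mulVec z := by
      intro y hy
      have h1 := hST R θ hDS (Fin n) W hstab y hy
      clear hy
      induction h1 using Submodule.span_induction with
      | mem u hu =>
        obtain ⟨⟨x, hx⟩, hu2⟩ := hu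
        choose c hc using hu2
        have hu' : ⇑u = algebraMap ℂ R ∘ c := by
          funext k; exact hc k
        have hcG' : c ∈ G := (memG c).2 ⟨x, by rw [← hu', hx]⟩
        refine ⟨algebraMap ℂ R ∘ (b'.repr ⟨c, hcG'⟩), ?_⟩
        have h2 : c = cM.mulVec (b'.repr ⟨c, hcG'⟩) := by
          rw [hcM, b'.sum_repr]
        rw [hu']
        conv_lhs => rw [h2]
        funext k
        simp [Matrix.mulVec, dotProduct, map_sum]
      | zero => exact ⟨0, by rw [Matrix.mulVec_zero]; rfl⟩
      | add u v _ _ hu hv =>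
        obtain ⟨z, hz⟩ := hu
        obtain ⟨z', hz'⟩ := hv
        exact ⟨z + z', by rw [Finsupp.coe_add, hz, hz', Matrix.mulVec_add]⟩
      | smul a u _ hu =>
        obtain ⟨z, hz⟩ := hu
        exact ⟨a • z, by rw [Finsupp.coe_smul, hz, Matrix.mulVec_smul]⟩
    have hz : ∀ k : Fin r, ∃ z : Fin s → R, Ψ.mulVec (wR.mulVec (Pi.single k 1)) =
        (cM.map (algebraMap ℂ R)).mulVec z := by
      intro k
      have h1 : Finsupp.equivFunOnFinite.symm (Ψ.mulVec (wR.mulVec (Pi.single k 1))) ∈ W := by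
        refine ⟨Pi.single k 1, ?_⟩
        rw [Finsupp.coe_equivFunOnFinite_symm, Matrix.mulVec_mulVec, hΦΨ, Matrix.one_mulVec]
      obtain ⟨z, hz⟩ := hspan _ h1
      exact ⟨z, by rw [← hz, Finsupp.coe_equivFunOnFinite_symm]⟩
    choose z hz using hz
    have hZ : wR = Φ * (cM.map (algebraMap ℂ R) * Matrix.of fun j k => z k j) := by
      ext a k
      have h1 : Φ.mulVec (Ψ.mulVec (wR.mulVec (Pi.single k 1))) = wR.mulVec (Pi.single k 1) := by
        rw [Matrix.mulVec_mulVec, hΦΨ, Matrix.one_mulVec]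
      rw [hz] at h1
      have h2 : wR a k = wR.mulVec (Pi.single k 1) a := by simp
      rw [h2, ← h1, Matrix.mulVec_mulVec, ← Matrix.mul_assoc, mul_cols]
      rfl
    have hrs : r ≤ s := by
      refine card_le_of_indep (R := R) (Matrix.of fun j k => z k j) fun x hx => hwR x ?_
      rw [hZ, ← Matrix.mul_assoc, ← Matrix.mulVec_mulVec, hx, Matrix.mulVec_zero]
    omega
  · -- stability
    intro δ E hδ hE c hc
    obtain ⟨x, hx⟩ := (memG c).1 hc
    refine (memG _).2 ⟨δ ∘ x, ?_⟩
    have h1 := der_mulVec δ Φ (algebraMap ℂ R ∘ c)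
    have h2 := der_mulVec δ wR x
    have h3 : wR.map δ = 0 := by
      ext a b
      simp [hwRd, hδ]
    rw [der_const, Matrix.mulVec_zero, add_zero, hx, h2, h3, Matrix.zero_mulVec, zero_add, hE,
      ← Matrix.mulVec_mulVec] at h1
    rw [h1]
    congr 1
    funext k
    simp [Matrix.mulVec, dotProduct, map_sum]
  · intro c hc hci
    obtain ⟨H, hH1, hH2⟩ := key r c hc hci
    refine ⟨H, by rw [hH1, hwRd], ?_, ?_⟩
    · intro h0
      obtain ⟨v, hv, hv'⟩ := Matrix.exists_mulVec_eq_zero_iff.2 h0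
      exact hv (hH2 v hv')
    · have h1 := der_mul θ Φ (c.map (algebraMap ℂ R))
      have h2 : (c.map (algebraMap ℂ R)).map θ = 0 := by
        ext a b; simp
      rw [h2, Matrix.mul_zero, add_zero, hΦ', Matrix.mul_assoc, hH1, der_mul, hθw] at h1
      have h3 : wR * (BR * H + H.map θ) = 0 := by
        rw [Matrix.mul_add]
        have h4 : wR * (BR * H) + wR * H.map θ = ((AR * wR + wR * BR) * H + wR * H.map θ) -
            AR * (wR * H) := by
          rw [Matrix.add_mul, Matrix.mul_assoc, Matrix.mul_assoc]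
          abel
        rw [h4, h1, sub_self]
      have h5 := zero_of_mul_zero wR _ hwR h3
      have h6 : H.map θ = -(BR * H) := by
        rw [← sub_eq_zero, sub_neg_eq_add, add_comm]
        exact h5
      have h7 := Pool.Agent.H461R3.deriv_det θ H
      rw [h7, h6, Matrix.mul_neg, Matrix.trace_neg, Matrix.trace_mul_comm, Matrix.mul_assoc,
        Matrix.mul_adjugate, Matrix.mul_smul, Matrix.mul_one, Matrix.trace_smul, smul_eq_mul]
      have h8 : BR.trace = algebraMap F R B.trace := by
        rw [hBRd, Matrix.trace, Matrix.trace, map_sum]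
        rfl
      rw [h8]
      ring

end Pool.Agent.E8helper49.AZ
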